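import Pool.Agent.TH894.PV7

/-!
# Hooley's conjecture for individual moduli which arise from an arbitrary integer by `C log log X` changes of digits

Nothing is used besides Mathlib in the statement.
-/

set_option autoImplicit false

namespace Pool.Agent.Results.MP_5d318d_nt.FewDigitModuli

open Finset

/-- `ψ(x; q, a) = ∑_{n ≤ x, n ≡ a mod q} Λ(n)` for `0 ≤ a < q` -/
noncomputable def psiAP (x : ℝ) (q a : ℕ) : ℝ :=
  ∑ n ∈ (Icc 1 ⌊x⌋₊).filter (fun n => n % q = a), ArithmeticFunction.vonMangoldt n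

/-- The variance `G(x,q) = ∑_{a mod q, (a,q)=1} (ψ(x;q,a) - x/φ(q))²`. -/
noncomputable def G (x : ℝ) (q : ℕ) : ℝ :=
  ∑ a ∈ (range q).filter (fun a => Nat.Coprime a q), (psiAP x q a - x / (Nat.totient q : ℝ)) ^ 2

/-- With `X = b ^ K`: either `Q < X / K ^ κ`, or `|G(x,Q) - x log Q| ≤ ε x log Q` for all real `x` with
`Q ≤ x ≤ Q K ^ κ`. -/
def Good (ε : ℝ) (κ b K Q : ℕ) : Prop :=
  b ^ K ≤ Q * K ^ κ → ∀ x : ℝ, (Q : ℝ) ≤ x → x ≤ Q * (K : ℝ) ^ κ →
    |G x Q - x * Real.log Q| ≤ ε * (x * Real.log Q)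

/-- The digit number `i` (counted from the right, beginning with `0`) of `n` in base `b`. -/
def digit (b i n : ℕ) : ℕ := n / b ^ i % b

/-- The number which arises from the number `N` with at most `K` digits in base `b`, if for every `i ∈ S`
the digit number `i` is replaced by `f i`. -/
def change (b K N : ℕ) (f : ℕ → ℕ) (S : Finset ℕ) : ℕ :=
  ∑ i ∈ range K, (if i ∈ S then f i else digit b i N) * b ^ i

/-- The positions `1, ..., K - 1` of a number with at most `K` digits are divided into three windows: the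
first and the last `h` positions and the rest. -/
def window (h K : ℕ) (q : Fin 3) : Finset ℕ :=
  if q = 0 then Ico 1 (1 + h) else if q = 1 then Ico (1 + h) (K - h) else Ico (K - h) K

/-- The choices of `s 0`, `s 1`, `s 2` positions in the three windows. -/
def choices (h K : ℕ) (s : Fin 3 → ℕ) : Finset (Fin 3 → Finset ℕ) :=
  Fintype.piFinset (fun q => powersetCard (s q) (window h K q))

open Classical in
/-- The number of the choices for which the number obtained by changing the digits of `N` at the chosen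
positions (according to `f`) does not have the property `E`. -/
noncomputable def exceptions (b h K N : ℕ) (f : ℕ → ℕ) (s : Fin 3 → ℕ) (E : ℕ → Prop) : ℕ :=
  ((choices h K s).filter (fun S => ¬ E (change b K N f (S 0 ∪ S 1 ∪ S 2)))).card

lemma change_SM (b K N : ℕ) (f : ℕ → ℕ) (T : Finset ℕ) : change b K N f T = Pool.Agent.TH894.SM.change b K N f T := rfl

/-- For every base `b ≥ 2` there is an `R ≥ 1` with the following property. Let `κ`, `U` and `0 < ε ≤ 1` be given. Then
there are `C₁ ≥ 1` and `A` such that for every sufficiently large `K` and every integer `0 ≤ N < X = b ^ K` the following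
holds.

Let `m = ⌊log_b (K + 1)⌋ + 1` and `h = A m`, and divide the positions `1, ..., K - 1` of the digits into three windows: the
first `h` and the last `h` of them, and the rest. Prescribe for every position `j` a digit `f j` different from the
digit of `N`. Let `s 0`, `s 1`, `s 2` be integers between `C₁ m` and `1 / R` times the length of the respective
window (by the first assertion one can take `s q = C₁ m`, so that only `3 C₁ m` of the digits of `N` are changed).

If one chooses `s 0`, `s 1`, `s 2` positions in the three windows and replaces the digits of `N` at these positions, then for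
all but at most a proportion `1 / K ^ U` of the choices the number `Q` obtained is smaller than `X / K ^ κ`, or satisfies
`|G(x,Q) - x log Q| ≤ ε x log Q` for all real `x` with `Q ≤ x ≤ Q K ^ κ`. -/
theorem result (b : ℕ) (hb : 2 ≤ b) : ∃ R : ℕ, 1 ≤ R ∧ ∀ κ U : ℕ, ∀ ε : ℝ, 0 < ε → ε ≤ 1 → ∃ C₁ A K₀ : ℕ, 1 ≤ C₁ ∧
    ∀ K : ℕ, K₀ ≤ K → (∀ q, R * (C₁ * (Nat.log b (K + 1) + 1)) ≤ (window (A * (Nat.log b (K + 1) + 1)) K q).card) ∧
    ∀ N : ℕ, N < b ^ K → ∀ f : ℕ → ℕ, (∀ j, f j < b ∧ f j ≠ digit b j N) →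
    ∀ s : Fin 3 → ℕ, (∀ q, C₁ * (Nat.log b (K + 1) + 1) ≤ s q ∧ R * s q ≤ (window (A * (Nat.log b (K + 1) + 1)) K q).card) →
      (exceptions b (A * (Nat.log b (K + 1) + 1)) K N f s (Good ε κ b K) : ℝ) ≤
        1 / (K : ℝ) ^ U * (choices (A * (Nat.log b (K + 1) + 1)) K s).card := by
  classical
  obtain ⟨R, hR, H⟩ := Pool.Agent.TH894.PV.var_ch b hb
  refine ⟨8 * R, by omega, fun κ U ε hε hε1 => ?_⟩
  obtain ⟨C₁, hC, H1⟩ := H κ U ε hε hε1
  obtain ⟨A, hA, k₀, h0⟩ := H1 (8 * R * C₁)
  obtain ⟨k2, h2⟩ := Pool.Agent.W93.DG.hh_small b A 4 hb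
  refine ⟨C₁, 2 * A, k₀ + k2 + 8, hC, fun K hK => ?_⟩
  have hwin : ∀ q, window (2 * A * (Nat.log b (K + 1) + 1)) K q =
      Pool.Agent.TH894.SM.Win (Pool.Agent.W93.DG.hh b A (K + 1)) (K + 1) q := by
    intro q
    unfold window Pool.Agent.TH894.SM.Win Pool.Agent.W93.DG.hh
    rw [Nat.add_sub_cancel]
  have hsm := h2 (K + 1) (by omega)
  have hlow : 8 * R * (C₁ * (Nat.log b (K + 1) + 1)) ≤ Pool.Agent.W93.DG.hh b A (K + 1) := by
    unfold Pool.Agent.W93.DG.hh
    calc 8 * R * (C₁ * (Nat.log b (K + 1) + 1)) = (8 * R * C₁) * (Nat.log b (K + 1) + 1) := by ring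
      _ ≤ (2 * A) * (Nat.log b (K + 1) + 1) := Nat.mul_le_mul_right _ (by omega)
  refine ⟨fun q => ?_, fun N hN f hf s hs => ?_⟩
  · rw [hwin]
    refine hlow.trans ?_
    unfold Pool.Agent.TH894.SM.Win
    split_ifs
    · rw [Nat.card_Ico]; omega
    · rw [Nat.card_Ico]; omega
    · rw [Nat.card_Ico]; omega
  have hun : ∀ S : Fin 3 → Finset ℕ, Pool.Agent.TH894.SM.un S = S 0 ∪ S 1 ∪ S 2 := by
    intro S
    unfold Pool.Agent.TH894.SM.un
    ext x
    simp only [mem_biUnion, mem_univ, true_and, mem_union]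
    constructor
    · rintro ⟨q, hq⟩
      have hq3 : q = 0 ∨ q = 1 ∨ q = 2 := by fin_cases q <;> simp
      rcases hq3 with rfl | rfl | rfl
      · exact Or.inl (Or.inl hq)
      · exact Or.inl (Or.inr hq)
      · exact Or.inr hq
    · rintro ((h | h) | h)
      · exact ⟨0, h⟩
      · exact ⟨1, h⟩
      · exact ⟨2, h⟩
  have hch : choices (2 * A * (Nat.log b (K + 1) + 1)) K s = Pool.Agent.TH894.LG.Ch b A K s := by
    unfold choices Pool.Agent.TH894.LG.Ch
    simp only [hwin]
  unfold exceptions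
  rw [hch]
  refine h0 K (by omega) N hN f hf s (fun q => (hs q).1) (fun q => by rw [← hwin]; exact (hs q).2) _ (filter_subset _ _) ?_
  intro S hS
  rw [mem_filter] at hS
  obtain ⟨_, hS2⟩ := hS
  rw [← hun S, change_SM] at hS2
  unfold Good at hS2
  push Not at hS2
  obtain ⟨h3, x, h4, h5, h6⟩ := hS2
  exact ⟨x, h3, h4, h5, not_le.2 h6⟩

end Pool.Agent.Results.MP_5d318d_nt.FewDigitModuli
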