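import Pool.Agent.Results.MP_5d318d_nt.ThinFamilyModuli
import Pool.Agent.TH872.GQ.Fam

/-!
# Hooley's asymptotic formula for the variance, for quadratic moduli at integers with restricted digits

Definitions used (in `Pool.Agent.TH872.GQ`): `S b D k`: the integers below `b ^ k` whose `i`-th digit in base `b`
lies in `D i`, for all `i < k`; `value κ β c n = c + κ n ^ 2 + β n`.
-/

set_option autoImplicit false

namespace Pool.Agent.Results.MP_5d318d_nt.QuadraticModuli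

open Finset Pool.Agent.TH872.GQ

/-- `ψ(x; q, a) = ∑_{n ≤ x, n ≡ a mod q} Λ(n)` for `0 ≤ a < q` -/
noncomputable def psiAP (x : ℝ) (q a : ℕ) : ℝ :=
  ∑ n ∈ (Icc 1 ⌊x⌋₊).filter (fun n => n % q = a), ArithmeticFunction.vonMangoldt n

/-- The variance `G(x,q) = ∑_{a mod q, (a,q)=1} (ψ(x;q,a) - x/φ(q))²`. -/
noncomputable def G (x : ℝ) (q : ℕ) : ℝ :=
  ∑ a ∈ (range q).filter (fun a => Nat.Coprime a q), (psiAP x q a - x / (Nat.totient q : ℝ)) ^ 2

/-- `|G(x,Q) - x log Q| ≤ ε x log Q` for all real `x` with `Q ≤ x ≤ Q (log Q) ^ A`. -/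
def Good (ε : ℝ) (A Q : ℕ) : Prop :=
  ∀ x : ℝ, (Q : ℝ) ≤ x → x ≤ Q * Real.log Q ^ A → |G x Q - x * Real.log Q| ≤ ε * (x * Real.log Q)

open Classical in
/-- Let `b ≥ 2`, integers `κ ≠ 0` and `β`, and `B`, `A`, `U` and `0 < ε ≤ 1` be fixed, and let `k` be large. Let
`D 0, …, D (k - 1)` be arbitrary sets of at least two digits in base `b`, let `S` be the set of the integers below
`b ^ k` whose `i`-th digit lies in `D i` for all `i < k`, and let `c` be an arbitrary integer with `|c| ≤ B b ^ (2 k)`.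
Then all the moduli `Q = c + κ n ^ 2 + β n`, `n ∈ S`, which are positive, except for those for at most `#S / k ^ U` of the
`n ∈ S`, satisfy `|G(x,Q) - x log Q| ≤ ε x log Q` for ALL real `x` with `Q ≤ x ≤ Q (log Q) ^ A`. -/
theorem result (b B A U : ℕ) (hb : 2 ≤ b) (κ β : ℤ) (hκ : κ ≠ 0) (ε : ℝ) (hε : 0 < ε) (hε1 : ε ≤ 1) :
    ∃ k₀ : ℕ, ∀ k : ℕ, k₀ ≤ k → ∀ D : ℕ → Finset ℕ, (∀ i < k, D i ⊆ range b ∧ 2 ≤ (D i).card) →
      ∀ c : ℤ, |c| ≤ B * (b : ℤ) ^ (2 * k) →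
      (((S b D k).filter (fun n => 0 < value κ β c n ∧ ¬ Good ε A (value κ β c n).toNat)).card : ℝ) ≤
        (S b D k).card / (k : ℝ) ^ U := by
  obtain ⟨h, B', k1, hh, hB1, hBB, hfam⟩ := fam b hb κ β hκ B
  obtain ⟨W, k2, hsm⟩ := small b hb κ β hκ B' U
  obtain ⟨n3, h3⟩ := Pool.Agent.Results.MP_5d318d_nt.ThinFamilyModuli.first h 1 (max W A) (U + 1) ε hε hε1
  refine ⟨k1 + k2 + n3 + 2, fun k hk D hD c hc => ?_⟩
  obtain ⟨f1, f2, f3, f4⟩ := hfam k (by omega) D hD c hc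
  obtain ⟨N, hN⟩ : ∃ N : ℕ, N = B' * b ^ (2 * k) := ⟨_, rfl⟩
  have hk1 : (1 : ℝ) ≤ k := by exact_mod_cast (by omega : 1 ≤ k)
  have hkN : k ≤ N := by
    rw [hN]
    calc k ≤ 2 * k := by omega
      _ ≤ b ^ (2 * k) := (Nat.lt_pow_self (by omega)).le
      _ ≤ _ := Nat.le_mul_of_pos_left _ (by omega)
  have r1 := hsm (max W A) (le_max_left _ _) k (by omega) D hD c (fun n => 0 < value κ β c n ∧
    ((value κ β c n : ℤ) : ℝ) * Real.log ((B' * b ^ (2 * k) : ℕ) : ℝ) ^ (max W A) < ((B' * b ^ (2 * k) : ℕ) : ℝ)) (fun n hn => hn)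
  rw [← hN] at f1 f2 f3 r1
  have hfc : Fintype.card {n // n ∈ S b D k} = (S b D k).card := Fintype.card_coe _
  have r2 := h3 N (by omega) {n // n ∈ S b D k} (fun i => value κ β c i.1) f1 f2
  rw [hfc] at r2
  have r3 := r2.trans (pow_of_log _ _ (Nat.cast_nonneg _) k (U + 1) (by omega) f3)
  unfold Pool.Agent.Results.MP_5d318d_nt.ThinFamilyModuli.exceptions at r3
  have r4 := conv (S b D k) (fun n => 0 < value κ β c n ∧ (N : ℝ) ≤ ((value κ β c n : ℤ) : ℝ) * Real.log N ^ (max W A) ∧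
    ¬ Good ε A (value κ β c n).toNat) _ (fun i hi => ⟨hi.1, hi.2.1, fun hg => hi.2.2 (by
      intro x hx1 hx2
      refine hg x hx1 (hx2.trans ?_)
      have hQ0 : (0 : ℝ) ≤ ((value κ β c i.1).toNat : ℝ) := Nat.cast_nonneg _
      apply mul_le_mul_of_nonneg_left _ hQ0
      have hQ1 : 1 ≤ (value κ β c i.1).toNat := by
        have := hi.1
        omega
      have hQN : (value κ β c i.1).toNat ≤ N := by
        have h5 := (abs_le.1 (f1 i)).2
        omega
      have hlog : Real.log ((value κ β c i.1).toNat : ℝ) ≤ Real.log N :=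
        Real.log_le_log (by exact_mod_cast hQ1) (by exact_mod_cast hQN)
      have hlog0 : 0 ≤ Real.log ((value κ β c i.1).toNat : ℝ) := Real.log_natCast_nonneg _
      calc Real.log ((value κ β c i.1).toNat : ℝ) ^ A ≤ Real.log N ^ A := pow_le_pow_left₀ hlog0 hlog A
        _ ≤ Real.log N ^ (max W A) := pow_le_pow_right₀ (by linarith) (le_max_right _ _))⟩) _ r3
  refine add_small (S b D k) _ _ _ k U (by omega) ?_ r1 r4
  intro n _ hn
  rcases lt_or_ge (((value κ β c n : ℤ) : ℝ) * Real.log N ^ (max W A)) N with h5 | h5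
  · exact Or.inl ⟨hn.1, h5⟩
  · exact Or.inr ⟨hn.1, h5, hn.2⟩

end Pool.Agent.Results.MP_5d318d_nt.QuadraticModuli
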