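import Pool.Agent.TH935.HM2
import Pool.Agent.TH935.LF12
import Pool.Agent.TH935.GF2

/-!
# Hooley's asymptotic formula for the variance, for almost all moduli in thin families

Nothing is used besides Mathlib in the statement.
-/

set_option autoImplicit false

namespace Pool.Agent.Results.MP_5d318d_nt.ThinFamilyModuli

open Finset

/-- `ψ(x; q, a) = ∑_{n ≤ x, n ≡ a mod q} Λ(n)` for `0 ≤ a < q` -/
noncomputable def psiAP (x : ℝ) (q a : ℕ) : ℝ :=
  ∑ n ∈ (Icc 1 ⌊x⌋₊).filter (fun n => n % q = a), ArithmeticFunction.vonMangoldt n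

/-- The variance `G(x,q) = ∑_{a mod q, (a,q)=1} (ψ(x;q,a) - x/φ(q))²`. -/
noncomputable def G (x : ℝ) (q : ℕ) : ℝ :=
  ∑ a ∈ (range q).filter (fun a => Nat.Coprime a q), (psiAP x q a - x / (Nat.totient q : ℝ)) ^ 2

/-- `|G(x,Q) - x log Q| ≤ ε x log Q` for all real `x` with `Q ≤ x ≤ Q (log N) ^ κ`. -/
def Good (ε : ℝ) (κ N Q : ℕ) : Prop :=
  ∀ x : ℝ, (Q : ℝ) ≤ x → x ≤ Q * Real.log N ^ κ → |G x Q - x * Real.log Q| ≤ ε * (x * Real.log Q)

/-- The additive energy of order `h` of a finite family of integers `v i`: the number of solutions of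
`v (a 1) + ... + v (a h) = v (b 1) + ... + v (b h)`. -/
noncomputable def energy (h : ℕ) {ι : Type} [Fintype ι] (v : ι → ℤ) : ℕ :=
  Nat.card {q : (Fin h → ι) × (Fin h → ι) // ∑ j, v (q.1 j) = ∑ j, v (q.2 j)}

/-- The number of representations of `t` as `v (a 1) + ... + v (a h)`. -/
noncomputable def reps (h : ℕ) {ι : Type} [Fintype ι] (v : ι → ℤ) (t : ℤ) : ℕ :=
  Nat.card {a : Fin h → ι // ∑ j, v (a j) = t}

open Classical in
/-- The number of the members `Q = v i` of the family with `Q ≥ N / (log N) ^ κ` for which `Good` fails. -/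
noncomputable def exceptions (ε : ℝ) (κ N : ℕ) {ι : Type} [Fintype ι] (v : ι → ℤ) : ℕ :=
  (univ.filter (fun i => 0 < v i ∧ (N : ℝ) ≤ v i * Real.log N ^ κ ∧ ¬ Good ε κ N (v i).toNat)).card

open Classical in
/-- The number of the `m ≤ M` for which `f(m)` is not a positive integer with the property `Good` (with `M` in
place of `N`). -/
noncomputable def polyExceptions (ε : ℝ) (κ M : ℕ) (f : Polynomial ℤ) : ℕ :=
  ((Icc 1 M).filter (fun m : ℕ => ¬ (0 < f.eval (m : ℤ) ∧ Good ε κ M (f.eval (m : ℤ)).toNat))).card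

theorem first (h C κ U : ℕ) (ε : ℝ) (hε : 0 < ε) (hε1 : ε ≤ 1) :
    ∃ N₀ : ℕ, ∀ N : ℕ, N₀ ≤ N → ∀ (ι : Type) [Fintype ι] (v : ι → ℤ), (∀ i, |v i| ≤ N) →
      (energy h v : ℝ) * N ≤ Real.log N ^ C * (Fintype.card ι : ℝ) ^ (2 * h) →
      (exceptions ε κ N v : ℝ) ≤ Fintype.card ι / Real.log N ^ U := by
  classical
  obtain ⟨N₀, h0⟩ := Pool.Agent.TH935.LF.transferZ h 1 C U
    (fun N c => ¬ (0 < c ∧ (N : ℝ) ≤ c * Real.log N ^ κ ∧ ¬ Good ε κ N c.toNat)) (by
    intro C U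
    obtain ⟨N₀, h1⟩ := Pool.Agent.TH935.HM.mod_fam h C κ U ε hε hε1
    refine ⟨N₀, fun N hN x s hs hE S hSx hS => h1 N hN x s (fun m hm => ?_) hE S hSx fun m hm => ?_⟩
    · have h2 := (hs m hm).1
      push_cast at h2
      linarith
    · have h2 := hS m hm
      rw [not_not] at h2
      obtain ⟨h3, h4, h5⟩ := h2
      have h6 : (((s m).toNat : ℕ) : ℝ) = ((s m : ℤ) : ℝ) := by
        have : (((s m).toNat : ℕ) : ℤ) = s m := Int.toNat_of_nonneg h3.le
        exact_mod_cast this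
      refine ⟨h3, by rw [h6]; exact h4, ?_⟩
      unfold Good at h5
      push Not at h5
      obtain ⟨y, hy1, hy2, hy3⟩ := h5
      exact ⟨y, hy1, hy2, not_le.2 hy3⟩)
  refine ⟨N₀, fun N hN ι _ v hv hE => ?_⟩
  unfold exceptions
  refine h0 N hN ι v (fun i => by push_cast; linarith [hv i]) hE _ ?_
  intro i hi
  rw [mem_filter] at hi
  exact ⟨hi.2.1.ne', fun h => h ⟨hi.2.1, hi.2.2.1, hi.2.2.2⟩⟩

/-- Let `h`, `C`, `κ`, `U` and `0 < ε ≤ 1` be fixed.

* Let `N` be large, and let `v i`, `i ∈ ι`, be an arbitrary finite family of integers with `|v i| ≤ N` whose additive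
  energy of order `h` is at most `log ^ C N` times `(#ι) ^ (2 h) / N` (up to the power of the logarithm this is the least
  possible energy of a family with members in `[-N, N]`, and the family may have as few as `N ^ (1 / h)` members). Then all
  members `Q ≥ N / (log N) ^ κ` of the family, with at most `#ι / log ^ U N` exceptions, have the following property:
  `|G(x,Q) - x log Q| ≤ ε x log Q` for all real `x` with `Q ≤ x ≤ Q (log N) ^ κ`.
* In particular this holds if no integer has more than `log ^ C N` representations as a sum of `h` members of the family,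
  and `(#ι) ^ h ≥ N / log ^ C N`.
* Let `f` be a nonconstant polynomial with integer coefficients and positive leading coefficient. For all `m ≤ M` with at
  most `M / log ^ U M` exceptions, the modulus `Q = f(m)` is positive and satisfies `|G(x,Q) - x log Q| ≤ ε x log Q` for all
  real `x` with `Q ≤ x ≤ Q (log M) ^ κ`, if `M` is sufficiently large. -/
theorem result (h C κ U : ℕ) (ε : ℝ) (hε : 0 < ε) (hε1 : ε ≤ 1) :
    (∃ N₀ : ℕ, ∀ N : ℕ, N₀ ≤ N → ∀ (ι : Type) [Fintype ι] (v : ι → ℤ), (∀ i, |v i| ≤ N) →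
      (energy h v : ℝ) * N ≤ Real.log N ^ C * (Fintype.card ι : ℝ) ^ (2 * h) →
      (exceptions ε κ N v : ℝ) ≤ Fintype.card ι / Real.log N ^ U) ∧
    (∃ N₀ : ℕ, ∀ N : ℕ, N₀ ≤ N → ∀ (ι : Type) [Fintype ι] (v : ι → ℤ), (∀ i, |v i| ≤ N) →
      (∀ t, (reps h v t : ℝ) ≤ Real.log N ^ C) →
      (N : ℝ) ≤ Real.log N ^ C * (Fintype.card ι : ℝ) ^ h →
      (exceptions ε κ N v : ℝ) ≤ Fintype.card ι / Real.log N ^ U) ∧
    (∀ f : Polynomial ℤ, 1 ≤ f.natDegree → 0 < f.leadingCoeff →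
      ∃ M₀ : ℕ, ∀ M : ℕ, M₀ ≤ M → (polyExceptions ε κ M f : ℝ) ≤ M / Real.log M ^ U) := by
  refine ⟨first h C κ U ε hε hε1, ?_, ?_⟩
  · obtain ⟨N₀, h0⟩ := first h (2 * C) κ U ε hε hε1
    obtain ⟨N₁, h1⟩ := Pool.Agent.H373R2.T7.ev_L' 1
    refine ⟨N₀ + N₁, fun N hN ι _ v hv hJ hx => ?_⟩
    apply h0 N (by omega) ι v hv
    have hL := h1 N (by omega)
    have hL0 : 0 ≤ Real.log N := by linarith
    have h2 : (energy h v : ℝ) ≤ (Fintype.card ι : ℝ) ^ h * Real.log N ^ C :=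
      Pool.Agent.TH935.GF.En_le h v _ hJ
    calc (energy h v : ℝ) * N ≤ ((Fintype.card ι : ℝ) ^ h * Real.log N ^ C) * (Real.log N ^ C * (Fintype.card ι : ℝ) ^ h) :=
          mul_le_mul h2 hx (Nat.cast_nonneg _) (by positivity)
      _ = Real.log N ^ (2 * C) * (Fintype.card ι : ℝ) ^ (2 * h) := by ring
  · classical
    intro f hd hl
    obtain ⟨M₀, h0⟩ := Pool.Agent.TH935.HM.mod_poly f hd hl κ U ε hε hε1
    refine ⟨M₀, fun M hM => ?_⟩
    unfold polyExceptions
    refine h0 M hM _ (filter_subset _ _) ?_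
    intro m hm
    rw [mem_filter] at hm
    exact hm.2

end Pool.Agent.Results.MP_5d318d_nt.ThinFamilyModuli
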